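import Pool.Agent.Helper28.NO.Goals

/-!
# Packet B (MP_705522_gt): lower bounds for `V = E|aY₁ + bY₂ + R|`
-/

namespace Pool.Agent.Helper50.NO

open MeasureTheory Set
open Pool.Agent.Helper28.NO

/-- `G z = Lf (cos(z·) h)` is a measurable function of `z`, with linear growth. -/
lemma G_props {h : ℝ → ℝ} {ν : Measure ℝ} (H : IsLaw h ν) :
    Measurable (fun z : ℝ => Lf (fun t => Real.cos (z * t) * h t)) ∧
    (∀ z : ℝ, 0 ≤ Lf (fun t => Real.cos (z * t) * h t)) ∧
    ∀ z : ℝ, Lf (fun t => Real.cos (z * t) * h t) ≤ |z| + Lf h := by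
  have := H.prob
  refine ⟨?_, ?_, ?_⟩
  · have e : (fun z : ℝ => Lf (fun t => Real.cos (z * t) * h t)) =
        fun z : ℝ => ∫ x, max |z| |x| ∂ν := by
      ext z
      exact (H.main z).2
    rw [e]
    have hm : StronglyMeasurable (Function.uncurry fun (z : ℝ) (x : ℝ) => max |z| |x|) := by
      unfold Function.uncurry
      exact Continuous.stronglyMeasurable (by fun_prop)
    exact hm.integral_prod_right.measurable
  · intro z
    exact (abs_nonneg z).trans ((le_max_left _ _).trans (H.le_Lf_cos z))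
  · intro z
    rw [(H.main z).2, H.Lf_eq]
    have h1 : ∫ x, max |z| |x| ∂ν ≤ ∫ x, (|z| + |x|) ∂ν := by
      refine integral_mono (integrable_max_abs H.int z)
        ((integrable_const _).add H.int.abs) (fun x => ?_)
      exact max_le (le_add_of_nonneg_right (abs_nonneg _)) (le_add_of_nonneg_left (abs_nonneg _))
    refine h1.trans (le_of_eq ?_)
    rw [integral_add (integrable_const _) H.int.abs]
    simp

/-- The master inequality. -/
lemma master {q : ℝ} {μ : Measure ℝ} (B : Base q μ) {h : ℝ → ℝ} {ν : Measure ℝ}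
    (H : IsLaw h ν) (a b ρ : ℝ) (hρ : ρ ≤ Lf h) :
    ∫ p : ℝ × ℝ, (max |a * p.1 + b * p.2| ρ + max |a * p.1 - b * p.2| ρ) / 2 ∂(μ.prod μ) ≤
      Lf (fun t => ph μ (a * t) * (ph μ (b * t) * h t)) := by
  have := B.prob
  have := H.prob
  have Y1 : Integrable (fun p : ℝ × ℝ => p.1) (μ.prod μ) := B.int.comp_fst μ
  have Y2 : Integrable (fun p : ℝ × ℝ => p.2) (μ.prod μ) := B.int.comp_snd μ
  obtain ⟨Gm, G0, Gb⟩ := G_props H
  set G : ℝ → ℝ := fun z => Lf (fun t => Real.cos (z * t) * h t) with hG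
  have Gint : ∀ f : ℝ × ℝ → ℝ, Measurable f → Integrable f (μ.prod μ) →
      Integrable (fun p => G (f p)) (μ.prod μ) := by
    intro f fm fi
    refine Integrable.mono' (fi.abs.add (integrable_const (Lf h)))
      (Gm.comp fm).aestronglyMeasurable ?_
    refine Filter.Eventually.of_forall fun p => ?_
    rw [Real.norm_of_nonneg (G0 _)]
    exact Gb _
  have iA : Integrable (fun p : ℝ × ℝ => a * p.1 + b * p.2) (μ.prod μ) :=
    (Y1.const_mul a).add (Y2.const_mul b)
  have iD : Integrable (fun p : ℝ × ℝ => a * p.1 - b * p.2) (μ.prod μ) :=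
    (Y1.const_mul a).sub (Y2.const_mul b)
  have hk : ∀ p : ℝ × ℝ, (fun t => Real.cos (a * p.1 * t) * Real.cos (b * p.2 * t) * h t) =
      fun t => 1 / 2 * (Real.cos ((a * p.1 + b * p.2) * t) * h t) +
        1 / 2 * (Real.cos ((a * p.1 - b * p.2) * t) * h t) := by
    intro p
    ext t
    rw [add_mul, sub_mul, Real.cos_add, Real.cos_sub]
    ring
  have kok : ∀ p : ℝ × ℝ, Ok (fun t => Real.cos (a * p.1 * t) * Real.cos (b * p.2 * t) * h t) := by
    intro p
    rw [hk p]
    refine ok_aff (H.main _).1 (H.main _).1 (by norm_num) (fun t => ?_)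
    have e := congrFun (hk p) t
    rw [← e, abs_mul, abs_mul]
    exact mul_le_one₀ (mul_le_one₀ (Real.abs_cos_le_one _) (abs_nonneg _) (Real.abs_cos_le_one _))
      (abs_nonneg _) (H.ok.abs_le t)
  have kLf : ∀ p : ℝ × ℝ, Lf (fun t => Real.cos (a * p.1 * t) * Real.cos (b * p.2 * t) * h t) =
      1 / 2 * G (a * p.1 + b * p.2) + 1 / 2 * G (a * p.1 - b * p.2) := by
    intro p
    rw [hk p, Lf_aff (H.main _).1 (H.main _).1 (by norm_num)]
  have IG : Integrable (fun p : ℝ × ℝ => 1 / 2 * G (a * p.1 + b * p.2) +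
      1 / 2 * G (a * p.1 - b * p.2)) (μ.prod μ) :=
    ((Gint _ (by fun_prop) iA).const_mul _).add ((Gint _ (by fun_prop) iD).const_mul _)
  have hm : Measurable (Function.uncurry fun (p : ℝ × ℝ) (t : ℝ) =>
      Real.cos (a * p.1 * t) * Real.cos (b * p.2 * t) * h t) := by
    have hh : Measurable h := H.ok.meas
    unfold Function.uncurry
    refine Measurable.mul ?_ (hh.comp measurable_snd)
    fun_prop
  have M := (mix (μ.prod μ) _ hm kok (IG.congr (Filter.Eventually.of_forall fun p =>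
    (kLf p).symm))).2
  have e1 : (fun t => ∫ p : ℝ × ℝ, Real.cos (a * p.1 * t) * Real.cos (b * p.2 * t) * h t
      ∂(μ.prod μ)) = fun t => ph μ (a * t) * (ph μ (b * t) * h t) := by
    ext t
    rw [integral_mul_const]
    have : ∫ p : ℝ × ℝ, Real.cos (a * p.1 * t) * Real.cos (b * p.2 * t) ∂(μ.prod μ) =
        (∫ y, Real.cos (a * y * t) ∂μ) * ∫ y, Real.cos (b * y * t) ∂μ :=
      integral_prod_mul (fun y => Real.cos (a * y * t)) (fun y => Real.cos (b * y * t))
    rw [this, ph, ph]
    have s : ∀ c : ℝ, (∫ y, Real.cos (c * y * t) ∂μ) = ∫ y, Real.cos (c * t * y) ∂μ := by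
      intro c
      congr 1
      ext y
      ring_nf
    rw [s, s]
    ring
  rw [← e1, M]
  refine integral_mono ?_ (IG.congr (Filter.Eventually.of_forall fun p => (kLf p).symm))
    (fun p => ?_)
  · exact ((iA.abs.sup (integrable_const _)).add (iD.abs.sup (integrable_const _))).div_const 2
  · show (max |a * p.1 + b * p.2| ρ + max |a * p.1 - b * p.2| ρ) / 2 ≤ _
    rw [kLf p]
    have g : ∀ z, max |z| ρ ≤ G z := fun z =>
      (max_le_max le_rfl hρ).trans (H.le_Lf_cos z)
    have g1 := g (a * p.1 + b * p.2)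
    have g2 := g (a * p.1 - b * p.2)
    linarith

/-- Packet B. -/
theorem goalB : GB := by
  intro q μ B h ν H a b ρ hb hab hρ0 hρ
  have := B.prob
  have ha : 0 < a := lt_of_lt_of_le hb hab
  have Y1 : Integrable (fun p : ℝ × ℝ => p.1) (μ.prod μ) := B.int.comp_fst μ
  have Y2 : Integrable (fun p : ℝ × ℝ => p.2) (μ.prod μ) := B.int.comp_snd μ
  have E1 : ∫ p : ℝ × ℝ, p.1 ∂(μ.prod μ) = 1 := by
    rw [integral_fun_fst (fun y : ℝ => y), B.mean]
    simp
  have E2 : ∫ p : ℝ × ℝ, p.2 ∂(μ.prod μ) = 1 := by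
    rw [integral_fun_snd (fun y : ℝ => y), B.mean]
    simp
  have P1 : ∀ᵐ p : ℝ × ℝ ∂(μ.prod μ), 0 < p.1 :=
    Measure.quasiMeasurePreserving_fst.ae B.pos
  have P2 : ∀ᵐ p : ℝ × ℝ ∂(μ.prod μ), 0 < p.2 :=
    Measure.quasiMeasurePreserving_snd.ae B.pos
  have iA : Integrable (fun p : ℝ × ℝ => a * p.1 + b * p.2) (μ.prod μ) :=
    (Y1.const_mul a).add (Y2.const_mul b)
  have iD : ∀ a b : ℝ, Integrable (fun p : ℝ × ℝ => |a * p.1 - b * p.2|) (μ.prod μ) :=
    fun a b => ((Y1.const_mul a).sub (Y2.const_mul b)).abs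
  have iM : ∀ a b : ℝ, Integrable (fun p : ℝ × ℝ => max (a * p.1) (b * p.2)) (μ.prod μ) :=
    fun a b => (Y1.const_mul a).sup (Y2.const_mul b)
  have iT : Integrable (fun p : ℝ × ℝ =>
      (max |a * p.1 + b * p.2| ρ + max |a * p.1 - b * p.2| ρ) / 2) (μ.prod μ) :=
    ((iA.abs.sup (integrable_const _)).add ((iD a b).sup (integrable_const _))).div_const 2
  have EA : ∫ p : ℝ × ℝ, (a * p.1 + b * p.2) ∂(μ.prod μ) = a + b := by
    rw [integral_add (Y1.const_mul a) (Y2.const_mul b), integral_const_mul, integral_const_mul,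
      E1, E2]
    ring
  have M := master B H a b ρ hρ
  refine ⟨?_, ?_, ?_, ?_⟩
  · refine le_trans ?_ M
    rw [← B.max_eq a b ha.le hb.le]
    refine integral_mono_ae (iM a b) iT ?_
    filter_upwards [P1, P2] with p h1 h2
    have := mul_pos ha h1
    have := mul_pos hb h2
    show max (a * p.1) (b * p.2) ≤ (max |a * p.1 + b * p.2| ρ + max |a * p.1 - b * p.2| ρ) / 2
    have k1 := le_max_left |a * p.1 + b * p.2| ρ
    have k2 := le_max_left |a * p.1 - b * p.2| ρ
    have k3 := le_abs_self (a * p.1 + b * p.2)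
    have k4 := le_abs_self (a * p.1 - b * p.2)
    have k5 := neg_abs_le (a * p.1 - b * p.2)
    apply max_le <;> linarith
  · refine le_trans ?_ M
    have e : (a + b + ρ) / 2 = ∫ p : ℝ × ℝ, ((a * p.1 + b * p.2) + ρ) / 2 ∂(μ.prod μ) := by
      rw [integral_div, integral_add iA (integrable_const _), EA]
      simp
    rw [e]
    refine integral_mono ((iA.add (integrable_const _)).div_const 2) iT (fun p => ?_)
    show ((a * p.1 + b * p.2) + ρ) / 2 ≤
      (max |a * p.1 + b * p.2| ρ + max |a * p.1 - b * p.2| ρ) / 2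
    have k1 := le_max_left |a * p.1 + b * p.2| ρ
    have k2 := le_max_right |a * p.1 - b * p.2| ρ
    have k3 := le_abs_self (a * p.1 + b * p.2)
    linarith
  · refine le_trans ?_ M
    have iDρ : ∀ a b : ℝ, Integrable (fun p : ℝ × ℝ => max |a * p.1 - b * p.2| ρ) (μ.prod μ) :=
      fun a b => (iD a b).sup (integrable_const _)
    have iAρ : Integrable (fun p : ℝ × ℝ => max |a * p.1 + b * p.2| ρ) (μ.prod μ) :=
      iA.abs.sup (integrable_const _)
    have esplit : ∫ p : ℝ × ℝ, (max |a * p.1 + b * p.2| ρ + max |a * p.1 - b * p.2| ρ) / 2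
        ∂(μ.prod μ) = ((∫ p : ℝ × ℝ, max |a * p.1 + b * p.2| ρ ∂(μ.prod μ)) +
          ∫ p : ℝ × ℝ, max |a * p.1 - b * p.2| ρ ∂(μ.prod μ)) / 2 := by
      rw [integral_div, integral_add iAρ (iDρ a b)]
    have hA : a + b ≤ ∫ p : ℝ × ℝ, max |a * p.1 + b * p.2| ρ ∂(μ.prod μ) := by
      rw [← EA]
      exact integral_mono iA (iA.abs.sup (integrable_const _))
        (fun p => (le_abs_self _).trans (le_max_left _ _))
    have hsymm : ∫ p : ℝ × ℝ, max |a * p.1 - b * p.2| ρ ∂(μ.prod μ) =
        ∫ p : ℝ × ℝ, max |a * p.2 - b * p.1| ρ ∂(μ.prod μ) := by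
      have := integral_prod_swap (μ := μ) (ν := μ)
        (fun p : ℝ × ℝ => max |a * p.1 - b * p.2| ρ)
      rw [← this]
      rfl
    have iD' : Integrable (fun p : ℝ × ℝ => max |a * p.2 - b * p.1| ρ) (μ.prod μ) :=
      ((Y2.const_mul a).sub (Y1.const_mul b)).abs.sup (integrable_const _)
    have iS : Integrable (fun p : ℝ × ℝ => p.1 + p.2) (μ.prod μ) := Y1.add Y2
    have ES : ∫ p : ℝ × ℝ, (p.1 + p.2) ∂(μ.prod μ) = 2 := by
      rw [integral_add Y1 Y2, E1, E2]
      norm_num
    have E3 : ∫ p : ℝ × ℝ, |p.1 - p.2| ∂(μ.prod μ) = 2 * (cc q - 1) := by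
      have hq : 0 < q := by linarith [B.q_ge]
      have mx := B.max_eq 1 1 zero_le_one zero_le_one
      rw [Real.one_rpow, one_add_one_eq_two] at mx
      have e : (fun p : ℝ × ℝ => |p.1 - p.2|) =
          fun p : ℝ × ℝ => 2 * max (1 * p.1) (1 * p.2) - (p.1 + p.2) := by
        ext p
        rw [one_mul, one_mul]
        rcases le_total p.1 p.2 with h | h
        · rw [max_eq_right h, abs_of_nonpos (by linarith)]
          ring
        · rw [max_eq_left h, abs_of_nonneg (by linarith)]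
          ring
      rw [e, integral_sub ((iM 1 1).const_mul 2) iS, integral_const_mul, mx, ES, cc]
      ring
    have hD : ((a + b) * (cc q - 1) + (a - b) + ρ) / 2 ≤
        ∫ p : ℝ × ℝ, max |a * p.1 - b * p.2| ρ ∂(μ.prod μ) := by
      have e2 : ∫ p : ℝ × ℝ, max |a * p.1 - b * p.2| ρ ∂(μ.prod μ) =
          ∫ p : ℝ × ℝ, (max |a * p.1 - b * p.2| ρ + max |a * p.2 - b * p.1| ρ) / 2
            ∂(μ.prod μ) := by
        rw [integral_div, integral_add (iDρ a b) iD', ← hsymm]
        ring
      have iz : Integrable (fun p : ℝ × ℝ => |p.1 - p.2|) (μ.prod μ) := (Y1.sub Y2).abs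
      have iz2 : Integrable (fun p : ℝ × ℝ => (a + b) / 2 * |p.1 - p.2| +
          (a - b) / 2 * (p.1 + p.2)) (μ.prod μ) := (iz.const_mul _).add (iS.const_mul _)
      have e3 : ((a + b) * (cc q - 1) + (a - b) + ρ) / 2 =
          ∫ p : ℝ × ℝ, ((a + b) / 2 * |p.1 - p.2| + (a - b) / 2 * (p.1 + p.2) + ρ) / 2
            ∂(μ.prod μ) := by
        rw [integral_div, integral_add iz2 (integrable_const _),
          integral_add (iz.const_mul _) (iS.const_mul _),
          integral_const_mul, integral_const_mul, E3, ES]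
        simp
        ring
      rw [e2, e3]
      refine integral_mono_ae ((iz2.add (integrable_const _)).div_const 2)
        (((iDρ a b).add iD').div_const 2) ?_
      filter_upwards [P1, P2] with p h1 h2
      show ((a + b) / 2 * |p.1 - p.2| + (a - b) / 2 * (p.1 + p.2) + ρ) / 2 ≤
        (max |a * p.1 - b * p.2| ρ + max |a * p.2 - b * p.1| ρ) / 2
      have k1 := le_max_left |a * p.1 - b * p.2| ρ
      have k2 := le_max_right |a * p.1 - b * p.2| ρ
      have k3 := le_max_left |a * p.2 - b * p.1| ρ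
      have k4 := le_max_right |a * p.2 - b * p.1| ρ
      have k5 := le_abs_self (a * p.1 - b * p.2)
      have k6 := le_abs_self (a * p.2 - b * p.1)
      rcases le_total p.1 p.2 with h | h
      · rw [abs_of_nonpos (by linarith : p.1 - p.2 ≤ 0)]
        nlinarith
      · rw [abs_of_nonneg (by linarith : 0 ≤ p.1 - p.2)]
        nlinarith
    rw [esplit]
    linarith
  · intro hρ1
    refine le_trans ?_ M
    have N := B.near a b ρ hb hab hρ0 hρ1
    have iN : Integrable (fun p : ℝ × ℝ => max 0 (ρ - |a * p.1 - b * p.2|)) (μ.prod μ) :=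
      (integrable_const (0 : ℝ)).sup ((integrable_const ρ).sub (iD a b))
    have e : ∫ p : ℝ × ℝ, (max (a * p.1) (b * p.2) +
        1 / 2 * max 0 (ρ - |a * p.1 - b * p.2|)) ∂(μ.prod μ) =
        (a ^ q + b ^ q) ^ (1 / q) +
          1 / 2 * ∫ p : ℝ × ℝ, max 0 (ρ - |a * p.1 - b * p.2|) ∂(μ.prod μ) := by
      rw [integral_add (iM a b) (iN.const_mul _), integral_const_mul, B.max_eq a b ha.le hb.le]
    calc _ ≤ ∫ p : ℝ × ℝ, (max (a * p.1) (b * p.2) +
        1 / 2 * max 0 (ρ - |a * p.1 - b * p.2|)) ∂(μ.prod μ) := by rw [e]; linarith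
      _ ≤ _ := by
        refine integral_mono_ae ((iM a b).add (iN.const_mul _)) iT ?_
        filter_upwards [P1, P2] with p h1 h2
        have := mul_pos ha h1
        have := mul_pos hb h2
        show max (a * p.1) (b * p.2) + 1 / 2 * max 0 (ρ - |a * p.1 - b * p.2|) ≤
          (max |a * p.1 + b * p.2| ρ + max |a * p.1 - b * p.2| ρ) / 2
        have k1 := le_max_left |a * p.1 + b * p.2| ρ
        have k3 := le_abs_self (a * p.1 + b * p.2)
        have k2 : |a * p.1 - b * p.2| + max 0 (ρ - |a * p.1 - b * p.2|) =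
            max |a * p.1 - b * p.2| ρ := by
          rcases le_total ρ |a * p.1 - b * p.2| with h | h
          · rw [max_eq_left h, max_eq_left (by linarith)]
            ring
          · rw [max_eq_right h, max_eq_right (by linarith)]
            ring
        rw [← k2]
        have k4 : 2 * max (a * p.1) (b * p.2) = (a * p.1 + b * p.2) + |a * p.1 - b * p.2| := by
          rcases le_total (a * p.1) (b * p.2) with h | h
          · rw [max_eq_right h, abs_of_nonpos (by linarith)]
            ring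
          · rw [max_eq_left h, abs_of_nonneg (by linarith)]
            ring
        linarith

end Pool.Agent.Helper50.NO
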